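import Mathlib
import Pool.Agent.H22.SW.XPDef
import Pool.Agent.H22.SW.Bic

set_option autoImplicit false

/-!
# An XP approximation of sim-width on graphs without an induced `K_{t,t}`

For every `t` there are computable functions `f`, `g` and a program that, given a graph `G` with
`n ≥ 2` vertices and without an induced `K_{t,t}`, and `k ≥ 1`, runs at a cost of at most
`g k * n ^ g k` and either reports that the sim-width of `G` is more than `k` or outputs a branch
decomposition of `G` of sim-width at most `f k`.
-/

namespace Pool.Agent.Results.MP_b97ac8_lc.BicliqueFree

open Pool.Agent.H22.SW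

theorem result (t : ℕ) (ht : 1 ≤ t) :
    XPApprox (fun _ G => KFree G t) (fun _ G T k => SimDec G T k) :=
  xp_bic t ht

end Pool.Agent.Results.MP_b97ac8_lc.BicliqueFree
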