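import Mathlib
import Pool.Agent.H22.SW.XPDef
import Pool.Agent.H22.SW.EqDef
import Pool.Agent.H22.SW.Eq

set_option autoImplicit false

/-!
# Equivalent forms of the question for mim-width

The question Q1 (an XP approximation of mim-width) has the same answer for all graphs, for bipartite
graphs, for split graphs, for co-bipartite graphs and for the graphs without induced `F`, for each
`F` that is not an induced subgraph of the path on four vertices; and it is equivalent to the
question Q2 (sim-width) restricted to bipartite graphs.  In particular a positive answer to Q2
implies a positive answer to Q1.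
-/

namespace Pool.Agent.Results.MP_b97ac8_lc.EquivalentForms

open Pool.Agent.H22.SW

theorem result : [XPApprox AllG (fun _ G T k => MimDec G T k),
    XPApprox BipG (fun _ G T k => SimDec G T k),
    XPApprox BipG (fun _ G T k => MimDec G T k),
    XPApprox SplitG (fun _ G T k => MimDec G T k),
    XPApprox CoBipG (fun _ G T k => MimDec G T k),
    ∃ (m : ℕ) (F : SimpleGraph (Fin m)), ¬ IsInd F (SimpleGraph.pathGraph 4) ∧
      XPApprox (FreeG F) (fun _ G T k => MimDec G T k),
    ∀ (m : ℕ) (F : SimpleGraph (Fin m)),
      XPApprox (FreeG F) (fun _ G T k => MimDec G T k)].TFAE :=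
  forms

end Pool.Agent.Results.MP_b97ac8_lc.EquivalentForms
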