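import Mathlib
import Pool.Agent.H22.SW.Defs
import Pool.Agent.H22.SW.TD

set_option autoImplicit false

/-!
# Sim-width and tree-independence number without induced bicliques

On graphs without an induced `K_{t,t}`, bounded sim-width implies bounded tree-independence number,
with an explicit bound.

A branch decomposition is represented by a rooted binary tree whose leaves are labelled bijectively
by the vertices (`Pool.Agent.H22.SW.BT`); the edges of the cubic tree obtained by suppressing the
root correspond to the proper subtrees (`psubs`), the two subtrees of the root giving the same edge.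
-/

namespace Pool.Agent.Results.MP_b97ac8_lc.SimTreeAlpha

open Pool.Agent.H22.SW

/-- The sim-width of `G` is at most `k`: there is a rooted binary tree `T` with leaves labelled
bijectively by the vertices such that, for every proper subtree `s`, every matching between the
labels of `s` and the other vertices which is induced in `G` has at most `k` edges. -/
def SimwLe {V : Type} (G : SimpleGraph V) (k : ℕ) : Prop :=
  ∃ T : BT V, T.lv.Nodup ∧ (∀ v, v ∈ T.lv) ∧
    ∀ s ∈ T.psubs, SimBd G {v | v ∈ s.lv} {v | v ∉ s.lv} k

/-- Every finite graph without an induced `K_{t,t}` and with sim-width at most `k` has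
tree-independence number at most `64 t ^ 2 (32 * 4 ^ (4 (k + 2 t))) ^ (t ^ 2) + 3`. -/
theorem result (t k : ℕ) (ht : 1 ≤ t) {V : Type} [Fintype V] (G : SimpleGraph V)
    (hK : KFree G t) (hS : SimwLe G k) :
    TreeAlpha G (64 * (t ^ 2 * (32 * 4 ^ (4 * (k + 2 * t))) ^ t ^ 2) + 3) := by
  classical
  obtain ⟨T, hT1, hT2, hT3⟩ := hS
  have h := treeAlpha_of_simw ht hK (G := G) (k := k)
    ⟨T, ⟨hT1, fun v => ⟨fun _ => Finset.mem_univ v, fun _ => hT2 v⟩⟩, fun s hs =>
      (hT3 s hs).mono (Set.Subset.refl _) fun v hv => hv.2⟩
  have e : 16 * cN t k + 3 = 64 * (t ^ 2 * (32 * 4 ^ (4 * (k + 2 * t))) ^ t ^ 2) + 3 := by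
    unfold cN nN rN
    ring
  rw [e] at h
  exact h

end Pool.Agent.Results.MP_b97ac8_lc.SimTreeAlpha
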